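import Mathlib

/-!
# The algebra of the braced 12-gon (Dixon's second mechanism with four vertices of degree two)
-/

set_option autoImplicit false

namespace Pool.Agent.Q3.Dixon

/-- the edges of the graph: the complete bipartite graph between `{1, 5, 7, 11}` and
`{2, 4, 8, 10}` and two edges at each of the vertices `0, 3, 6, 9` -/
def E : List (Fin 12 × Fin 12) :=
  [(1, 2), (1, 4), (1, 8), (1, 10), (5, 2), (5, 4), (5, 8), (5, 10),
   (7, 2), (7, 4), (7, 8), (7, 10), (11, 2), (11, 4), (11, 8), (11, 10),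
   (0, 1), (0, 11), (6, 5), (6, 7), (3, 2), (3, 4), (9, 8), (9, 10)]

/-- `2 × 2` determinant of the differences `m_i - m_j`, `m_i - m_k` -/
def dt {R : Type*} [CommRing R] (x y : Fin 12 → R) (i j k : Fin 12) : R :=
  (x i - x j) * (y i - y k) - (y i - y j) * (x i - x k)

/-- the condition of the four cycle -/
def D4 {R : Type*} [CommRing R] (x y : Fin 12 → R) : R :=
  dt x y 5 4 2 * dt x y 4 7 1 * dt x y 7 8 2 * dt x y 8 5 1 -
    dt x y 4 5 1 * dt x y 7 4 2 * dt x y 8 7 1 * dt x y 5 8 2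

/-- the polynomial whose non-vanishing implies rigidity -/
def Dval {R : Type*} [CommRing R] (x y : Fin 12 → R) : R :=
  (x 4 - x 1) * (x 8 - x 1) * (x 5 - x 2) * (x 7 - x 2) * D4 x y * dt x y 11 2 4 *
    dt x y 10 1 5 * dt x y 0 1 11 * dt x y 6 5 7 * dt x y 3 2 4 * dt x y 9 8 10 * (x 2 - x 1)

/-- two independent conditions -/
theorem two_conditions {a b c d v w : ℝ} (h1 : a * v + b * w = 0) (h2 : c * v + d * w = 0)
    (h : a * d - b * c ≠ 0) : v = 0 ∧ w = 0 := by
  constructor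
  · have : (a * d - b * c) * v = 0 := by linear_combination d * h1 - b * h2
    exact (mul_eq_zero.mp this).resolve_left h
  · have : (a * d - b * c) * w = 0 := by linear_combination a * h2 - c * h1
    exact (mul_eq_zero.mp this).resolve_left h

theorem perp {a b v w : ℝ} (ha : a ≠ 0) (h : a * v + b * w = 0) :
    ∃ l : ℝ, v = -(l * b) ∧ w = l * a := by
  refine ⟨w / a, ?_, ?_⟩
  · field_simp
    linear_combination h
  · field_simp

theorem inf_rigid {x y v w : Fin 12 → ℝ} (hD : Dval x y ≠ 0)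
    (h1 : v 1 = 0) (h1' : w 1 = 0) (h2 : v 2 = 0) (h2' : w 2 = 0)
    (h : ∀ e ∈ E, (x e.1 - x e.2) * (v e.1 - v e.2) + (y e.1 - y e.2) * (w e.1 - w e.2) = 0) :
    ∀ i, v i = 0 ∧ w i = 0 := by
  simp only [Dval, mul_ne_zero_iff] at hD
  obtain ⟨⟨⟨⟨⟨⟨⟨⟨⟨⟨⟨n41, n81⟩, n52⟩, n72⟩, nD⟩, n11⟩, n10⟩, n0⟩, n6⟩, n3⟩, n9⟩, _⟩ := hD
  simp only [E, List.forall_mem_cons, List.not_mem_nil, false_imp_iff, implies_true, and_true,
    h1, h1', h2, h2'] at h
  obtain ⟨-, e14, e18, e1x, e52, e54, e58, e5x, e72, e74, e78, e7x, eB2, eB4, eB8, eBx, e01, e0B,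
    e65, e67, e32, e34, e98, e9x⟩ := h
  obtain ⟨l4, p4, q4⟩ := perp (v := v 4) (w := w 4) (b := y 4 - y 1) n41
    (by linear_combination e14)
  obtain ⟨l8, p8, q8⟩ := perp (v := v 8) (w := w 8) (b := y 8 - y 1) n81
    (by linear_combination e18)
  obtain ⟨l5, p5, q5⟩ := perp (v := v 5) (w := w 5) (b := y 5 - y 2) n52
    (by linear_combination e52)
  obtain ⟨l7, p7, q7⟩ := perp (v := v 7) (w := w 7) (b := y 7 - y 2) n72
    (by linear_combination e72)
  rw [p5, q5, p4, q4] at e54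
  rw [p5, q5, p8, q8] at e58
  rw [p7, q7, p4, q4] at e74
  rw [p7, q7, p8, q8] at e78
  have c54 : l5 * dt x y 5 4 2 = - (l4 * dt x y 4 5 1) := by
    simp only [dt]; linear_combination -e54
  have c58 : l5 * dt x y 5 8 2 = - (l8 * dt x y 8 5 1) := by
    simp only [dt]; linear_combination -e58
  have c74 : l7 * dt x y 7 4 2 = - (l4 * dt x y 4 7 1) := by
    simp only [dt]; linear_combination -e74
  have c78 : l7 * dt x y 7 8 2 = - (l8 * dt x y 8 7 1) := by
    simp only [dt]; linear_combination -e78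
  have z5 : l5 = 0 := by
    have : l5 * D4 x y = 0 := by
      simp only [D4]
      linear_combination (dt x y 4 7 1 * dt x y 7 8 2 * dt x y 8 5 1) * c54 -
        (dt x y 4 5 1 * dt x y 7 8 2 * dt x y 8 5 1) * c74 +
        (dt x y 7 4 2 * dt x y 4 5 1 * dt x y 8 5 1) * c78 -
        (dt x y 4 5 1 * dt x y 7 4 2 * dt x y 8 7 1) * c58
    exact (mul_eq_zero.mp this).resolve_right nD
  have z4 : l4 = 0 := by
    have : l4 * D4 x y = 0 := by
      simp only [D4]
      linear_combination (dt x y 5 4 2 * dt x y 7 8 2 * dt x y 8 5 1) * c74 -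
        (dt x y 7 4 2 * dt x y 5 4 2 * dt x y 8 5 1) * c78 +
        (dt x y 8 7 1 * dt x y 7 4 2 * dt x y 5 4 2) * c58 -
        (dt x y 5 8 2 * dt x y 8 7 1 * dt x y 7 4 2) * c54
    exact (mul_eq_zero.mp this).resolve_right nD
  have z7 : l7 = 0 := by
    have : l7 * D4 x y = 0 := by
      simp only [D4]
      linear_combination (dt x y 5 4 2 * dt x y 4 7 1 * dt x y 8 5 1) * c78 -
        (dt x y 8 7 1 * dt x y 5 4 2 * dt x y 4 7 1) * c58 +
        (dt x y 5 8 2 * dt x y 8 7 1 * dt x y 4 7 1) * c54 -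
        (dt x y 4 5 1 * dt x y 5 8 2 * dt x y 8 7 1) * c74
    exact (mul_eq_zero.mp this).resolve_right nD
  have z8 : l8 = 0 := by
    have : l8 * D4 x y = 0 := by
      simp only [D4]
      linear_combination (dt x y 5 4 2 * dt x y 4 7 1 * dt x y 7 8 2) * c58 -
        (dt x y 5 8 2 * dt x y 4 7 1 * dt x y 7 8 2) * c54 +
        (dt x y 4 5 1 * dt x y 5 8 2 * dt x y 7 8 2) * c74 -
        (dt x y 7 4 2 * dt x y 4 5 1 * dt x y 5 8 2) * c78
    exact (mul_eq_zero.mp this).resolve_right nD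
  subst z5 z4 z7 z8
  rw [zero_mul, neg_zero] at p4 p5 p7 p8
  rw [zero_mul] at q4 q5 q7 q8
  rw [p4, q4] at eB4 e34
  rw [p5, q5] at e5x e65
  rw [p7, q7] at e67
  rw [p8, q8] at e98
  obtain ⟨pB, qB⟩ := two_conditions (a := x 11 - x 2) (b := y 11 - y 2) (c := x 11 - x 4)
    (d := y 11 - y 4) (v := v 11) (w := w 11) (by linear_combination eB2)
    (by linear_combination eB4) (by simpa only [dt] using n11)
  obtain ⟨px, qx⟩ := two_conditions (a := x 10 - x 1) (b := y 10 - y 1) (c := x 10 - x 5)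
    (d := y 10 - y 5) (v := v 10) (w := w 10) (by linear_combination e1x)
    (by linear_combination e5x) (by simpa only [dt] using n10)
  rw [pB, qB] at e0B
  rw [px, qx] at e9x
  obtain ⟨p0, q0⟩ := two_conditions (a := x 0 - x 1) (b := y 0 - y 1) (c := x 0 - x 11)
    (d := y 0 - y 11) (v := v 0) (w := w 0) (by linear_combination e01)
    (by linear_combination e0B) (by simpa only [dt] using n0)
  obtain ⟨p6, q6⟩ := two_conditions (a := x 6 - x 5) (b := y 6 - y 5) (c := x 6 - x 7)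
    (d := y 6 - y 7) (v := v 6) (w := w 6) (by linear_combination e65)
    (by linear_combination e67) (by simpa only [dt] using n6)
  obtain ⟨p3, q3⟩ := two_conditions (a := x 3 - x 2) (b := y 3 - y 2) (c := x 3 - x 4)
    (d := y 3 - y 4) (v := v 3) (w := w 3) (by linear_combination e32)
    (by linear_combination e34) (by simpa only [dt] using n3)
  obtain ⟨p9, q9⟩ := two_conditions (a := x 9 - x 8) (b := y 9 - y 8) (c := x 9 - x 10)
    (d := y 9 - y 10) (v := v 9) (w := w 9) (by linear_combination e98)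
    (by linear_combination e9x) (by simpa only [dt] using n9)
  intro i
  fin_cases i
  exacts [⟨p0, q0⟩, ⟨h1, h1'⟩, ⟨h2, h2'⟩, ⟨p3, q3⟩, ⟨p4, q4⟩, ⟨p5, q5⟩, ⟨p6, q6⟩, ⟨p7, q7⟩,
    ⟨p8, q8⟩, ⟨p9, q9⟩, ⟨px, qx⟩, ⟨pB, qB⟩]

/-- the polynomial over `ℚ` -/
noncomputable def Dpoly : MvPolynomial (Fin 12 × Fin 2) ℚ :=
  Dval (fun i => MvPolynomial.X (i, 0)) (fun i => MvPolynomial.X (i, 1))

theorem map_Dval {R S : Type*} [CommRing R] [CommRing S] (f : R →+* S) (x y : Fin 12 → R) :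
    f (Dval x y) = Dval (fun i => f (x i)) (fun i => f (y i)) := by
  simp only [Dval, D4, dt, map_mul, map_sub]

theorem aeval_Dpoly (x y : Fin 12 → ℝ) :
    MvPolynomial.aeval (fun v : Fin 12 × Fin 2 => if v.2 = 0 then x v.1 else y v.1) Dpoly =
      Dval x y := by
  rw [Dpoly, ← AlgHom.coe_toRingHom, map_Dval]
  simp

theorem Dpoly_ne : Dpoly ≠ 0 := by
  intro h
  have h1 := congrArg (MvPolynomial.eval
    (fun v : Fin 12 × Fin 2 => if v.2 = 0 then (v.1.val : ℚ) else (v.1.val : ℚ) ^ 3)) h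
  rw [Dpoly, map_Dval, map_zero] at h1
  simp only [MvPolynomial.eval_X, Dval, D4, dt] at h1
  norm_num at h1

/-! ### local uniqueness -/

theorem continuous_Dval : Continuous (fun m : (Fin 12 → ℝ) × (Fin 12 → ℝ) => Dval m.1 m.2) := by
  unfold Dval D4 dt
  fun_prop

theorem local_unique (x y : Fin 12 → ℝ) (hD : Dval x y ≠ 0) :
    ∃ ε > 0, ∀ x' y' : Fin 12 → ℝ, dist x' x < ε → dist y' y < ε →
      x' 1 = x 1 → y' 1 = y 1 → x' 2 = x 2 → y' 2 = y 2 →
      (∀ e ∈ E, (x' e.1 - x' e.2) ^ 2 + (y' e.1 - y' e.2) ^ 2 =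
        (x e.1 - x e.2) ^ 2 + (y e.1 - y e.2) ^ 2) → x' = x ∧ y' = y := by
  have ho : IsOpen {m : (Fin 12 → ℝ) × (Fin 12 → ℝ) | Dval m.1 m.2 ≠ 0} :=
    isOpen_ne_fun continuous_Dval continuous_const
  obtain ⟨ε, hε, hb⟩ := Metric.isOpen_iff.mp ho (x, y) hD
  refine ⟨ε, hε, ?_⟩
  intro x' y' hx hy h1 h1' h2 h2' h
  have hm : ((2⁻¹ : ℝ) • (x' + x), (2⁻¹ : ℝ) • (y' + y)) ∈ Metric.ball (x, y) ε := by
    have key : ∀ z z' : Fin 12 → ℝ, dist z' z < ε → dist ((2⁻¹ : ℝ) • (z' + z)) z < ε := by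
      intro z z' hz
      have e : (2⁻¹ : ℝ) • (z' + z) - z = (2⁻¹ : ℝ) • (z' - z) := by
        funext i
        simp only [Pi.sub_apply, Pi.smul_apply, Pi.add_apply, smul_eq_mul]
        ring
      rw [dist_eq_norm, e, norm_smul, ← dist_eq_norm]
      have : ‖(2⁻¹ : ℝ)‖ = 2⁻¹ := by norm_num
      rw [this]
      have := dist_nonneg (x := z') (y := z)
      linarith
    rw [Metric.mem_ball, Prod.dist_eq, max_lt_iff]
    exact ⟨key x x' hx, key y y' hy⟩
  have hD' : Dval ((2⁻¹ : ℝ) • (x' + x)) ((2⁻¹ : ℝ) • (y' + y)) ≠ 0 := hb hm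
  have := inf_rigid (v := x' - x) (w := y' - y) hD' (by simp [h1]) (by simp [h1'])
    (by simp [h2]) (by simp [h2']) (by
      intro e he
      simp only [Pi.sub_apply, Pi.smul_apply, Pi.add_apply, smul_eq_mul]
      linear_combination (1 / 2) * h e he)
  constructor
  · funext i
    have := (this i).1
    simp only [Pi.sub_apply] at this
    linarith
  · funext i
    have := (this i).2
    simp only [Pi.sub_apply] at this
    linarith

end Pool.Agent.Q3.Dixon
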