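import Mathlib
import Pool.Agent.Q3.Dixon.Alg

/-!
# Rigidity of the generic configurations, and the motion
-/

set_option autoImplicit false

namespace Pool.Agent.Q3.Dixon

/-- the squared distance -/
def sq {R : Type*} [CommRing R] (x y : Fin 12 → R) (u w : Fin 12) : R :=
  (x u - x w) ^ 2 + (y u - y w) ^ 2

/-- Every motion of a configuration with `Dval ≠ 0` preserves all distances. -/
theorem rigid_of_Dval (X Y : unitInterval → Fin 12 → ℝ) (hX : Continuous X) (hY : Continuous Y)
    (hD : Dval (X 0) (Y 0) ≠ 0)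
    (h : ∀ t, ∀ e ∈ E, sq (X t) (Y t) e.1 e.2 = sq (X 0) (Y 0) e.1 e.2) (t : unitInterval)
    (u w : Fin 12) : sq (X t) (Y t) u w = sq (X 0) (Y 0) u w := by
  -- the edge `12`
  set ex : unitInterval → ℝ := fun t => X t 2 - X t 1 with hex
  set ey : unitInterval → ℝ := fun t => Y t 2 - Y t 1 with hey
  set L : ℝ := ex 0 ^ 2 + ey 0 ^ 2 with hL
  have hL0 : L ≠ 0 := by
    have h12 : X 0 2 - X 0 1 ≠ 0 := by
      simp only [Dval, mul_ne_zero_iff] at hD
      exact hD.2
    have : 0 < ex 0 ^ 2 := by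
      simp only [hex]
      positivity
    have h' : 0 ≤ ey 0 ^ 2 := sq_nonneg _
    rw [hL]
    positivity
  have hLt : ∀ t, ex t ^ 2 + ey t ^ 2 = L := by
    intro t
    have := h t (1, 2) (by simp [E])
    simp only [sq] at this
    simp only [hL, hex, hey]
    linear_combination this
  set C : unitInterval → ℝ := fun t => ex 0 * ex t + ey 0 * ey t with hC
  set S : unitInterval → ℝ := fun t => ex 0 * ey t - ey 0 * ex t with hS
  have hCS : ∀ t, C t ^ 2 + S t ^ 2 = L ^ 2 := by
    intro t
    have := hLt t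
    simp only [hC, hS]
    have h2 : (ex 0 ^ 2 + ey 0 ^ 2) * (ex t ^ 2 + ey t ^ 2) = L ^ 2 := by
      rw [this, ← hL]; ring
    linear_combination h2
  -- the normalized motion
  set X' : unitInterval → Fin 12 → ℝ := fun t i =>
    X 0 1 + (C t * (X t i - X t 1) + S t * (Y t i - Y t 1)) / L with hX'
  set Y' : unitInterval → Fin 12 → ℝ := fun t i =>
    Y 0 1 + (-S t * (X t i - X t 1) + C t * (Y t i - Y t 1)) / L with hY'
  have cX : ∀ i, Continuous fun t => X t i := fun i => (continuous_apply i).comp hX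
  have cY : ∀ i, Continuous fun t => Y t i := fun i => (continuous_apply i).comp hY
  have cex : Continuous ex := (cX 2).sub (cX 1)
  have cey : Continuous ey := (cY 2).sub (cY 1)
  have cC : Continuous C := (continuous_const.mul cex).add (continuous_const.mul cey)
  have cS : Continuous S := (continuous_const.mul cey).sub (continuous_const.mul cex)
  have cX' : Continuous X' := by
    refine continuous_pi fun i => ?_
    exact continuous_const.add
      (((cC.mul ((cX i).sub (cX 1))).add (cS.mul ((cY i).sub (cY 1)))).div_const L)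
  have cY' : Continuous Y' := by
    refine continuous_pi fun i => ?_
    exact continuous_const.add
      (((cS.neg.mul ((cX i).sub (cX 1))).add (cC.mul ((cY i).sub (cY 1)))).div_const L)
  have hsq : ∀ t u w, sq (X' t) (Y' t) u w = sq (X t) (Y t) u w := by
    intro t u w
    simp only [sq, hX', hY']
    have h1 := hCS t
    field_simp
    linear_combination ((X t u - X t w) ^ 2 + (Y t u - Y t w) ^ 2) * h1
  have hX0 : X' 0 = X 0 := by
    funext i
    simp only [hX']
    have e1 : C 0 = L := by simp only [hC, hL]; ring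
    have e2 : S 0 = 0 := by simp only [hS]; ring
    rw [e1, e2]
    field_simp
    ring
  have hY0 : Y' 0 = Y 0 := by
    funext i
    simp only [hY']
    have e1 : C 0 = L := by simp only [hC, hL]; ring
    have e2 : S 0 = 0 := by simp only [hS]; ring
    rw [e1, e2]
    field_simp
    ring
  have p1 : ∀ t, X' t 1 = X 0 1 := by intro t; simp [hX']
  have p1' : ∀ t, Y' t 1 = Y 0 1 := by intro t; simp [hY']
  have p2 : ∀ t, X' t 2 = X 0 2 := by
    intro t
    have h1 := hLt t
    have : (C t * (X t 2 - X t 1) + S t * (Y t 2 - Y t 1)) / L = ex 0 := by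
      rw [div_eq_iff hL0]
      simp only [hC, hS]
      change (ex 0 * ex t + ey 0 * ey t) * ex t + (ex 0 * ey t - ey 0 * ex t) * ey t = ex 0 * L
      linear_combination ex 0 * h1
    simp only [hX', this, hex]
    ring
  have p2' : ∀ t, Y' t 2 = Y 0 2 := by
    intro t
    have h1 := hLt t
    have : (-S t * (X t 2 - X t 1) + C t * (Y t 2 - Y t 1)) / L = ey 0 := by
      rw [div_eq_iff hL0]
      simp only [hC, hS]
      change -(ex 0 * ey t - ey 0 * ex t) * ex t + (ex 0 * ex t + ey 0 * ey t) * ey t = ey 0 * L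
      linear_combination ey 0 * h1
    simp only [hY', this, hey]
    ring
  obtain ⟨ε, hε, hloc⟩ := local_unique (X 0) (Y 0) hD
  -- the set of times at which the normalized motion is at the start
  have hclosed : IsClosed {t | X' t = X 0 ∧ Y' t = Y 0} :=
    (isClosed_eq cX' continuous_const).inter (isClosed_eq cY' continuous_const)
  have hopen : IsOpen {t | X' t = X 0 ∧ Y' t = Y 0} := by
    have heq : {t | X' t = X 0 ∧ Y' t = Y 0} =
        {t | dist (X' t) (X 0) < ε ∧ dist (Y' t) (Y 0) < ε} := by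
      ext t
      constructor
      · rintro ⟨h1, h2⟩
        simp only [Set.mem_ofPred_eq, h1, h2, dist_self]
        exact ⟨hε, hε⟩
      · rintro ⟨h1, h2⟩
        refine hloc (X' t) (Y' t) h1 h2 (p1 t) (p1' t) (p2 t) (p2' t) ?_
        intro e he
        exact (hsq t e.1 e.2).trans (h t e he)
    rw [heq]
    exact (isOpen_lt (cX'.dist continuous_const) continuous_const).inter
      (isOpen_lt (cY'.dist continuous_const) continuous_const)
  have huniv := IsClopen.eq_univ ⟨hclosed, hopen⟩ ⟨0, hX0, hY0⟩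
  have ht : t ∈ {t | X' t = X 0 ∧ Y' t = Y 0} := by rw [huniv]; trivial
  rw [← hsq t u w, ht.1, ht.2]

/-! ### the motion -/

/-- the coordinates of the first orbit -/
noncomputable def ca (s : ℝ) : ℝ := (√(64 + s) + √(16 + s)) / 2
/-- the coordinates of the first orbit -/
noncomputable def cb (s : ℝ) : ℝ := (√(64 - s) - √(16 - s)) / 2
/-- the coordinates of the second orbit -/
noncomputable def cc (s : ℝ) : ℝ := (√(64 + s) - √(16 + s)) / 2
/-- the coordinates of the second orbit -/
noncomputable def cd (s : ℝ) : ℝ := (√(64 - s) + √(16 - s)) / 2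
/-- the vertices on the first axis -/
noncomputable def cq (s : ℝ) : ℝ := ca s + √(5 - cb s ^ 2)
/-- the vertices on the second axis -/
noncomputable def cr (s : ℝ) : ℝ := cd s + √(5 - cc s ^ 2)

/-- first coordinates of the motion -/
noncomputable def mx (s : ℝ) : Fin 12 → ℝ :=
  ![cq s, ca s, cc s, 0, -cc s, -ca s, -cq s, -ca s, -cc s, 0, cc s, ca s]

/-- second coordinates of the motion -/
noncomputable def my (s : ℝ) : Fin 12 → ℝ :=
  ![0, cb s, cd s, cr s, cd s, cb s, 0, -cb s, -cd s, -cr s, -cd s, -cb s]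

theorem sqrt64 : √(64 : ℝ) = 8 := by
  rw [show (64 : ℝ) = 8 ^ 2 by norm_num]; exact Real.sqrt_sq (by norm_num)

theorem sqrt16 : √(16 : ℝ) = 4 := by
  rw [show (16 : ℝ) = 4 ^ 2 by norm_num]; exact Real.sqrt_sq (by norm_num)

theorem ca_zero : ca 0 = 6 := by simp [ca, sqrt64, sqrt16]; norm_num
theorem cb_zero : cb 0 = 2 := by simp [cb, sqrt64, sqrt16]; norm_num
theorem cc_zero : cc 0 = 2 := by simp [cc, sqrt64, sqrt16]; norm_num
theorem cd_zero : cd 0 = 6 := by simp [cd, sqrt64, sqrt16]; norm_num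
theorem cq_zero : cq 0 = 7 := by rw [cq, ca_zero, cb_zero]; norm_num
theorem cr_zero : cr 0 = 7 := by rw [cr, cd_zero, cc_zero]; norm_num

theorem mx_zero : mx 0 = ![7, 6, 2, 0, -2, -6, -7, -6, -2, 0, 2, 6] := by
  rw [mx, ca_zero, cc_zero, cq_zero]

theorem my_zero : my 0 = ![0, 2, 6, 7, 6, 2, 0, -2, -6, -7, -6, -2] := by
  rw [my, cb_zero, cd_zero, cr_zero]

theorem lengths (s : ℝ) (h0 : 0 ≤ s) (h1 : s ≤ 1) :
    ∀ e ∈ E, sq (mx s) (my s) e.1 e.2 = sq (mx 0) (my 0) e.1 e.2 := by
  have e1 : √(64 + s) ^ 2 = 64 + s := Real.sq_sqrt (by linarith)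
  have e2 : √(16 + s) ^ 2 = 16 + s := Real.sq_sqrt (by linarith)
  have e3 : √(64 - s) ^ 2 = 64 - s := Real.sq_sqrt (by linarith)
  have e4 : √(16 - s) ^ 2 = 16 - s := Real.sq_sqrt (by linarith)
  have n1 : 0 ≤ √(64 + s) := Real.sqrt_nonneg _
  have n2 : 0 ≤ √(16 + s) := Real.sqrt_nonneg _
  have n3 : 0 ≤ √(64 - s) := Real.sqrt_nonneg _
  have n4 : 0 ≤ √(16 - s) := Real.sqrt_nonneg _
  have hmm : (ca s - cc s) ^ 2 + (cb s - cd s) ^ 2 = 32 := by
    simp only [ca, cb, cc, cd]
    linear_combination e2 + e4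
  have hpm : (ca s + cc s) ^ 2 + (cb s - cd s) ^ 2 = 80 := by
    simp only [ca, cb, cc, cd]
    linear_combination e1 + e4
  have hmp : (ca s - cc s) ^ 2 + (cb s + cd s) ^ 2 = 80 := by
    simp only [ca, cb, cc, cd]
    linear_combination e2 + e3
  have hpp : (ca s + cc s) ^ 2 + (cb s + cd s) ^ 2 = 128 := by
    simp only [ca, cb, cc, cd]
    linear_combination e1 + e3
  have b1 : √(64 - s) ≤ 8 := by
    rw [← sqrt64]; exact Real.sqrt_le_sqrt (by linarith)
  have b2 : 3.8 ≤ √(16 - s) := by
    apply Real.le_sqrt_of_sq_le; norm_num; linarith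
  have b3 : √(64 + s) ≤ 8.1 := by
    rw [Real.sqrt_le_left (by norm_num)]; norm_num; linarith
  have b4 : 4 ≤ √(16 + s) := by
    apply Real.le_sqrt_of_sq_le; norm_num; linarith
  have b5 : √(16 - s) ≤ √(64 - s) := Real.sqrt_le_sqrt (by linarith)
  have b6 : √(16 + s) ≤ √(64 + s) := Real.sqrt_le_sqrt (by linarith)
  have hb0 : 0 ≤ cb s := by simp only [cb]; linarith
  have hc0 : 0 ≤ cc s := by simp only [cc]; linarith
  have hb5 : cb s ^ 2 ≤ 5 := by
    have : cb s ≤ 2.1 := by simp only [cb]; linarith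
    nlinarith
  have hc5 : cc s ^ 2 ≤ 5 := by
    have : cc s ≤ 2.05 := by simp only [cc]; linarith
    nlinarith
  have hq : (cq s - ca s) ^ 2 + cb s ^ 2 = 5 := by
    have : (cq s - ca s) = √(5 - cb s ^ 2) := by simp only [cq]; ring
    rw [this, Real.sq_sqrt (by linarith)]
    ring
  have hr : (cr s - cd s) ^ 2 + cc s ^ 2 = 5 := by
    have : (cr s - cd s) = √(5 - cc s ^ 2) := by simp only [cr]; ring
    rw [this, Real.sq_sqrt (by linarith)]
    ring
  rw [mx_zero, my_zero]
  simp only [E, List.forall_mem_cons, List.not_mem_nil, false_imp_iff, implies_true, and_true, sq,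
    mx, my, Matrix.cons_val]
  refine ⟨?_, ?_, ?_, ?_, ?_, ?_, ?_, ?_, ?_, ?_, ?_, ?_, ?_, ?_, ?_, ?_, ?_, ?_, ?_, ?_, ?_, ?_,
    ?_, ?_⟩
  all_goals norm_num
  all_goals first
    | linear_combination hmm
    | linear_combination hpm
    | linear_combination hmp
    | linear_combination hpp
    | linear_combination hq
    | linear_combination hr

theorem moves : sq (mx 1) (my 1) 1 5 ≠ sq (mx 0) (my 0) 1 5 := by
  rw [mx_zero, my_zero]
  simp only [sq, mx, my, Matrix.cons_val]
  have h1 : (8 : ℝ) < √65 := by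
    apply Real.lt_sqrt_of_sq_lt; norm_num
  have h2 : (4 : ℝ) < √17 := by
    apply Real.lt_sqrt_of_sq_lt; norm_num
  have h3 : 6 < ca 1 := by
    have e : ca 1 = (√65 + √17) / 2 := by
      unfold ca
      norm_num
    rw [e]
    linarith
  intro h
  norm_num at h
  nlinarith

theorem continuous_mx : Continuous mx := by
  unfold mx
  refine continuous_pi fun i => ?_
  fin_cases i <;> simp [cq, ca, cc, cb] <;> fun_prop

theorem continuous_my : Continuous my := by
  unfold my
  refine continuous_pi fun i => ?_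
  fin_cases i <;> simp [cr, cd, cc, cb] <;> fun_prop

end Pool.Agent.Q3.Dixon
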